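import Pool.Agent.CRT.Stmts

/-!
# Row NSM of squad CRT: near pairs contribute little
-/

set_option autoImplicit false

namespace Pool.Agent.CRT.H81

open Set Filter Topology MeasureTheory Pool.Agent.CRT

noncomputable section

theorem nm_nonneg (d : Co) : 0 ≤ Nm d := le_max_of_le_left (abs_nonneg _)

theorem dk_nonneg {x : ℝ} (hx : 0 ≤ x) : 0 ≤ dk x := by
  unfold dk
  positivity

theorem dk_le_one {x : ℝ} (hx : 0 ≤ x) : dk x ≤ 1 := by
  unfold dk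
  have h1 : 1 ≤ Real.sqrt (1 + x) := Real.one_le_sqrt.2 (by linarith)
  have h2 : 1 ≤ (1 + x) * Real.sqrt (1 + x) := by nlinarith
  exact (div_le_one (by linarith)).2 h2

/-- the bound of one weight -/
theorem one_wt {C₁ C₂ T N k w D : ℝ} (h1 : 0 < C₁) (h2 : 1 ≤ C₂) (hT : 1 ≤ T) (hN : 0 ≤ N)
    (hk0 : 0 ≤ k) (hk : k ≤ C₂ * (1 + T * N)) (hw1 : w ≤ C₁ * T) (hD : 0 ≤ D)
    (hw2 : 0 < N → w ≤ C₁ * (Real.sqrt (T / N) * dk D)) :
    w ≤ C₁ * Real.sqrt (4 * C₂ + 1) * T * (1 / Real.sqrt (1 + k)) := by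
  have hs : 0 < Real.sqrt (1 + k) := Real.sqrt_pos.2 (by linarith)
  by_cases hc : k ≤ 2 * C₂
  · refine hw1.trans ?_
    have h3 : Real.sqrt (1 + k) ≤ Real.sqrt (4 * C₂ + 1) := Real.sqrt_le_sqrt (by linarith)
    have h4 : 1 ≤ Real.sqrt (4 * C₂ + 1) * (1 / Real.sqrt (1 + k)) := by
      rw [mul_one_div]
      exact (one_le_div hs).2 h3
    calc C₁ * T = C₁ * T * 1 := (mul_one _).symm
      _ ≤ C₁ * T * (Real.sqrt (4 * C₂ + 1) * (1 / Real.sqrt (1 + k))) :=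
          mul_le_mul_of_nonneg_left h4 (by positivity)
      _ = _ := by ring
  · push Not at hc
    have hTN : k ≤ 2 * C₂ * (T * N) := by nlinarith
    have hTN0 : 0 < T * N := by
      by_contra h
      push Not at h
      nlinarith
    have hN0 : 0 < N := by
      rcases hN.lt_or_eq with h | h
      · exact h
      · rw [← h, mul_zero] at hTN0
        exact absurd hTN0 (lt_irrefl _)
    refine (hw2 hN0).trans ?_
    have hk1 : 1 + k ≤ 2 * k := by linarith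
    have e1 : 1 + k ≤ (4 * C₂ + 1) * (T * N) := by nlinarith
    have e2 : Real.sqrt (T / N) * Real.sqrt (1 + k) ≤ T * Real.sqrt (4 * C₂ + 1) := by
      rw [← Real.sqrt_mul (by positivity)]
      have e3 : T * Real.sqrt (4 * C₂ + 1) = Real.sqrt (T ^ 2 * (4 * C₂ + 1)) := by
        rw [Real.sqrt_mul (by positivity), Real.sqrt_sq (by linarith)]
      rw [e3]
      apply Real.sqrt_le_sqrt
      calc T / N * (1 + k) ≤ T / N * ((4 * C₂ + 1) * (T * N)) :=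
            mul_le_mul_of_nonneg_left e1 (by positivity)
        _ = T ^ 2 * (4 * C₂ + 1) := by field_simp
    have e4 : Real.sqrt (T / N) ≤ T * Real.sqrt (4 * C₂ + 1) * (1 / Real.sqrt (1 + k)) := by
      rw [mul_one_div]
      exact (le_div_iff₀ hs).2 e2
    calc C₁ * (Real.sqrt (T / N) * dk D) ≤ C₁ * (Real.sqrt (T / N) * 1) := by
          apply mul_le_mul_of_nonneg_left _ h1.le
          exact mul_le_mul_of_nonneg_left (dk_le_one hD) (Real.sqrt_nonneg _)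
      _ ≤ C₁ * (T * Real.sqrt (4 * C₂ + 1) * (1 / Real.sqrt (1 + k))) := by
          rw [mul_one]
          exact mul_le_mul_of_nonneg_left e4 h1.le
      _ = _ := by ring

theorem nsm (hKer : KerStmt) (hNbh : NbhStmt) (hLat : LatStmt) : NsmStmt := by
  intro κ m hκ hm
  obtain ⟨C₁, hC₁, hK⟩ := hKer κ hκ
  obtain ⟨C₂, hC₂, hN⟩ := hNbh m hm
  obtain ⟨C₃, hC₃, hL⟩ := hLat
  refine ⟨C₁ * Real.sqrt (4 * C₂ + 1) * (C₃ * (2 * C₂ * Real.sqrt (2 * C₂))), ?_, ?_⟩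
  · have : 0 < Real.sqrt (4 * C₂ + 1) := Real.sqrt_pos.2 (by linarith)
    have : 0 < Real.sqrt (2 * C₂) := Real.sqrt_pos.2 (by linarith)
    positivity
  intro τ hτ Q P hF s hs i Q' hQ' hnear
  have hτ0 : 0 < τ := by linarith
  have hT : (1 : ℝ) ≤ τ ^ 10 := one_le_pow₀ hτ
  have h6 : (1 : ℝ) ≤ τ ^ 6 := one_le_pow₀ hτ
  obtain ⟨-, -, hNs⟩ := hN (τ ^ 10) hT Q P hF s hs
  -- the distances
  have hTN : ∀ s' ∈ Q', τ ^ 10 * Nm (P s - P s') ≤ τ ^ 6 := by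
    intro s' hs'
    have h := (hnear s' hs').le
    calc τ ^ 10 * Nm (P s - P s') = τ ^ 6 * (τ ^ 4 * Nm (P s - P s')) := by ring
      _ ≤ τ ^ 6 * 1 := mul_le_mul_of_nonneg_left h (by positivity)
      _ = τ ^ 6 := mul_one _
  have hR1 : 1 ≤ 2 * C₂ * τ ^ 6 := by nlinarith
  have hRb : ∀ s' ∈ Q', C₂ * (1 + τ ^ 10 * Nm (P s - P s')) ≤ 2 * C₂ * τ ^ 6 := by
    intro s' hs'
    have := hTN s' hs'
    nlinarith
  obtain ⟨-, hS⟩ := hL Q' s (2 * C₂ * τ ^ 6) hR1 (fun s' hs' => by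
    have h := hNs s' (hQ' hs')
    rw [abs_sub_comm, abs_sub_comm (s'.2 : ℝ)]
    exact ⟨h.1.trans (hRb s' hs'), h.2.trans (hRb s' hs')⟩)
  have hterm : ∀ s' ∈ Q', |wt i κ (τ ^ 10) (P s - P s')| ≤
      C₁ * Real.sqrt (4 * C₂ + 1) * τ ^ 10 *
        (1 / Real.sqrt (1 + max |(s'.1 : ℝ) - s.1| |(s'.2 : ℝ) - s.2|)) := by
    intro s' hs'
    obtain ⟨hw1, hw2⟩ := hK (τ ^ 10) hT i (P s - P s')
    have h := hNs s' (hQ' hs')
    have hnn := nm_nonneg (P s - P s')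
    refine one_wt (D := τ ^ 10 * |Dc (P s - P s')| / Nm (P s - P s')) hC₁ hC₂ hT hnn
      (le_max_of_le_left (abs_nonneg _)) ?_ hw1 (by positivity) hw2
    rw [abs_sub_comm, abs_sub_comm (s'.2 : ℝ)]
    exact max_le h.1 h.2
  calc ∑ s' ∈ Q', |wt i κ (τ ^ 10) (P s - P s')|
      ≤ ∑ s' ∈ Q', C₁ * Real.sqrt (4 * C₂ + 1) * τ ^ 10 *
        (1 / Real.sqrt (1 + max |(s'.1 : ℝ) - s.1| |(s'.2 : ℝ) - s.2|)) := Finset.sum_le_sum hterm
    _ = C₁ * Real.sqrt (4 * C₂ + 1) * τ ^ 10 *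
        ∑ s' ∈ Q', 1 / Real.sqrt (1 + max |(s'.1 : ℝ) - s.1| |(s'.2 : ℝ) - s.2|) := by
        rw [Finset.mul_sum]
    _ ≤ C₁ * Real.sqrt (4 * C₂ + 1) * τ ^ 10 *
        (C₃ * ((2 * C₂ * τ ^ 6) * Real.sqrt (2 * C₂ * τ ^ 6))) :=
        mul_le_mul_of_nonneg_left hS (by positivity)
    _ = _ := by
        have e : Real.sqrt (2 * C₂ * τ ^ 6) = Real.sqrt (2 * C₂) * τ ^ 3 := by
          rw [Real.sqrt_mul (by linarith), show τ ^ 6 = (τ ^ 3) ^ 2 by ring,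
            Real.sqrt_sq (by positivity)]
        rw [e]
        ring

end

end Pool.Agent.CRT.H81
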