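import Pool.Agent.CRT.Stmts

/-!
# Row SOL of squad CRT: there are few curves which are almost tangent to three given ones
-/

set_option autoImplicit false

namespace Pool.Agent.CRT.H81.Sol

open Set Filter Topology MeasureTheory Pool.Agent.CRT

noncomputable section

theorem nm_nonneg (d : Co) : 0 ≤ Nm d := le_max_of_le_left (abs_nonneg _)

theorem nm_sub_le (d e : Co) : Nm d ≤ Nm e + Nm (d - e) := by
  have h : ∀ a b : ℝ, |a| ≤ |b| + |a - b| := fun a b => by
    have := abs_add_le b (a - b)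
    rwa [add_sub_cancel] at this
  unfold Nm
  refine max_le ?_ (max_le ?_ ?_)
  · exact (h d.1 e.1).trans (add_le_add (le_max_left _ _) (le_max_left _ _))
  · exact (h d.2.1 e.2.1).trans (add_le_add ((le_max_left _ _).trans (le_max_right _ _))
      ((le_max_left _ _).trans (le_max_right _ _)))
  · exact (h d.2.2 e.2.2).trans (add_le_add ((le_max_right _ _).trans (le_max_right _ _))
      ((le_max_right _ _).trans (le_max_right _ _)))

/-- the decay function on the integers -/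
def gz (k : ℤ) : ℝ := 1 / |(k : ℝ) + 1 / 2| ^ (3 / 2 : ℝ)

theorem gz_nonneg (k : ℤ) : 0 ≤ gz k := by
  unfold gz
  positivity

theorem gz_sum : Summable gz := by
  have h := (Real.summable_one_div_int_add_rpow (1 / 2) (3 / 2)).2 (by norm_num)
  exact h

theorem dk_gz (x : ℝ) : dk |x| ≤ gz ⌊x⌋ := by
  have h1 : (⌊x⌋ : ℝ) ≤ x := Int.floor_le x
  have h2 : x < ⌊x⌋ + 1 := Int.lt_floor_add_one x
  have hpos : 0 < |(⌊x⌋ : ℝ) + 1 / 2| := by
    rw [abs_pos]
    intro h
    have h3 : ((2 * ⌊x⌋ + 1 : ℤ) : ℝ) = 0 := by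
      push_cast
      linarith
    have h4 : 2 * ⌊x⌋ + 1 = 0 := by exact_mod_cast h3
    omega
  have hle : |(⌊x⌋ : ℝ) + 1 / 2| ≤ 1 + |x| := by
    have h3 := abs_nonneg x
    have h4 := le_abs_self x
    have h5 := neg_abs_le x
    rw [abs_le]
    constructor
    · linarith
    · by_cases h6 : 0 ≤ ⌊x⌋
      · linarith
      · have h7 : ⌊x⌋ ≤ -1 := by omega
        have h8 : (⌊x⌋ : ℝ) ≤ -1 := by exact_mod_cast h7
        linarith
  have hx1 : 0 < 1 + |x| := by positivity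
  have e : (1 + |x|) * Real.sqrt (1 + |x|) = (1 + |x|) ^ (3 / 2 : ℝ) := by
    rw [Real.sqrt_eq_rpow]
    nth_rewrite 1 [← Real.rpow_one (1 + |x|)]
    rw [← Real.rpow_add hx1]
    norm_num
  unfold dk gz
  rw [e]
  apply one_div_le_one_div_of_le (Real.rpow_pos_of_pos hpos _)
  exact Real.rpow_le_rpow hpos.le hle (by norm_num)

/-- two curves with the same numbers -/
theorem pair {i : Fin 3} {σ T : ℝ} {d d' : Co} (hσ : σ = 1 ∨ σ = -1) (hT : 1 ≤ T)
    (h1 : Sec i σ d) (h2 : Sec i σ d')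
    (hD : |Dc d| ≤ Nm d ^ 2 / 10 ^ 6)
    (hk : ⌊T * Dc d / Nm d⌋ = ⌊T * Dc d' / Nm d'⌋) :
    ∃ ξ η : ℝ, |ξ - ce i| ≤ 1 / 60 ∧ |η - ce i ^ 2| ≤ 1 / 60 ∧
      |(d - d').1 + ξ * (d - d').2.1 + η * (d - d').2.2| ≤ 3 / (2 * T) + Nm (d - d') / 1000 := by
  obtain ⟨a1, a2, a3, a4⟩ := h1
  obtain ⟨b1, b2, b3, b4⟩ := h2
  have hT0 : 0 < T := by linarith
  have hN : 0 < Nm d := by
    have : |d.2.2| ≤ Nm d := (le_max_right _ _).trans (le_max_right _ _)
    have h3 : 0 < |d.2.2| := by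
      rw [abs_pos]
      intro h
      rw [h, mul_zero] at a1
      exact lt_irrefl _ a1
    linarith
  have hN' : 0 < Nm d' := by
    have : |d'.2.2| ≤ Nm d' := (le_max_right _ _).trans (le_max_right _ _)
    have h3 : 0 < |d'.2.2| := by
      rw [abs_pos]
      intro h
      rw [h, mul_zero] at b1
      exact lt_irrefl _ b1
    linarith
  obtain ⟨u2, hu2⟩ : ∃ u2, u2 = d.2.2 + d'.2.2 := ⟨_, rfl⟩
  have hσσ : σ * σ = 1 := by rcases hσ with h | h <;> rw [h] <;> norm_num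
  have hw : 0 < σ * u2 := by
    rw [hu2, mul_add]
    linarith
  have hu : u2 ≠ 0 := by
    intro h
    rw [h, mul_zero] at hw
    exact lt_irrefl _ hw
  have habs : |u2| = σ * u2 := by
    rcases hσ with h | h
    · rw [h, one_mul] at hw ⊢
      exact abs_of_pos hw
    · rw [h] at hw ⊢
      rw [abs_of_neg (by linarith)]
      ring
  have hNN : Nm d + Nm d' ≤ 3 * |u2| := by
    rw [habs, hu2, mul_add]
    linarith
  refine ⟨-(d.2.1 + d'.2.1) / (2 * u2), (d.1 + d'.1) / u2, ?_, ?_, ?_⟩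
  · have e : -(d.2.1 + d'.2.1) / (2 * u2) - ce i =
        -((d.2.1 + 2 * ce i * d.2.2) + (d'.2.1 + 2 * ce i * d'.2.2)) / (2 * u2) := by
      rw [hu2] at hu ⊢
      field_simp
      ring
    rw [e, abs_div, abs_neg, abs_mul, abs_two, habs]
    rw [div_le_iff₀ (by linarith)]
    have h3 := abs_add_le (d.2.1 + 2 * ce i * d.2.2) (d'.2.1 + 2 * ce i * d'.2.2)
    rw [hu2, mul_add]
    linarith
  · have e : (d.1 + d'.1) / u2 - ce i ^ 2 =
        ((d.1 - ce i ^ 2 * d.2.2) + (d'.1 - ce i ^ 2 * d'.2.2)) / u2 := by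
      rw [hu2] at hu ⊢
      field_simp
      ring
    rw [e, abs_div, habs]
    rw [div_le_iff₀ hw]
    have h3 := abs_add_le (d.1 - ce i ^ 2 * d.2.2) (d'.1 - ce i ^ 2 * d'.2.2)
    rw [hu2, mul_add]
    linarith
  · -- the polarised identity
    have hid : (d - d').1 + -(d.2.1 + d'.2.1) / (2 * u2) * (d - d').2.1 +
        (d.1 + d'.1) / u2 * (d - d').2.2 = -(Dc d - Dc d') / (2 * u2) := by
      simp only [Prod.fst_sub, Prod.snd_sub, Dc]
      rw [hu2] at hu ⊢
      field_simp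
      ring
    rw [hid, abs_div, abs_neg, abs_mul, abs_two]
    -- the difference of the discriminants
    obtain ⟨x, hx⟩ : ∃ x, x = T * Dc d / Nm d := ⟨_, rfl⟩
    obtain ⟨x', hx'⟩ : ∃ x', x' = T * Dc d' / Nm d' := ⟨_, rfl⟩
    rw [← hx, ← hx'] at hk
    have e1 : Dc d = Nm d * x / T := by
      rw [hx]
      field_simp
    have e2 : Dc d' = Nm d' * x' / T := by
      rw [hx']
      field_simp
    have hxx : |x - x'| ≤ 1 := by
      have f1 := Int.floor_le x
      have f2 := Int.lt_floor_add_one x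
      have f3 := Int.floor_le x'
      have f4 := Int.lt_floor_add_one x'
      rw [hk] at f1 f2
      rw [abs_le]
      constructor <;> linarith
    have hxT : |x| / T ≤ Nm d / 10 ^ 6 := by
      have f1 : |x| / T = |Dc d| / Nm d := by
        rw [hx, abs_div, abs_mul, abs_of_pos hT0, abs_of_pos hN]
        field_simp
      rw [f1, div_le_iff₀ hN]
      calc |Dc d| ≤ Nm d ^ 2 / 10 ^ 6 := hD
        _ = Nm d / 10 ^ 6 * Nm d := by ring
    have hz1 : |Nm d - Nm d'| ≤ Nm (d - d') := by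
      rw [abs_le]
      constructor
      · have h3 := nm_sub_le d' d
        have h4 : Nm (d' - d) = Nm (d - d') := by
          unfold Nm
          simp only [Prod.fst_sub, Prod.snd_sub]
          rw [abs_sub_comm d'.1, abs_sub_comm d'.2.1, abs_sub_comm d'.2.2]
        linarith
      · have h3 := nm_sub_le d d'
        linarith
    have hz := nm_nonneg (d - d')
    have hdiff : |Dc d - Dc d'| ≤ Nm (d - d') * (Nm d / 10 ^ 6) + Nm d' / T := by
      have e3 : Dc d - Dc d' = (Nm d - Nm d') * (x / T) + Nm d' * ((x - x') / T) := by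
        rw [e1, e2]
        ring
      rw [e3]
      refine (abs_add_le _ _).trans (add_le_add ?_ ?_)
      · rw [abs_mul, abs_div, abs_of_pos hT0]
        exact mul_le_mul hz1 hxT (by positivity) hz
      · rw [abs_mul, abs_div, abs_of_pos hT0, abs_of_pos hN', ← mul_div_assoc]
        gcongr
        nlinarith
    have hu0 : 0 < |u2| := abs_pos.2 hu
    rw [div_le_iff₀ (by linarith)]
    refine hdiff.trans ?_
    have g1 : Nm d' / T ≤ 3 * |u2| / T := by
      gcongr
      linarith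
    have g2 : Nm (d - d') * (Nm d / 10 ^ 6) ≤ Nm (d - d') * (3 * |u2| / 10 ^ 6) := by
      gcongr
      linarith
    have g3 : Nm (d - d') * (3 * |u2| / 10 ^ 6) ≤ Nm (d - d') / 1000 * (2 * |u2|) := by
      have : 0 ≤ Nm (d - d') * |u2| := by positivity
      nlinarith
    have g4 : 3 * |u2| / T = 3 / (2 * T) * (2 * |u2|) := by
      field_simp
    rw [add_mul, ← g4]
    linarith

theorem sol (hTri : TriStmt) (hNbh : NbhStmt) (hLat : LatStmt) : SolStmt := by
  intro m hm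
  obtain ⟨C₂, hC₂, hN⟩ := hNbh m hm
  obtain ⟨C₃, hC₃, hL⟩ := hLat
  have hG0 : 0 ≤ ∑' k, gz k := tsum_nonneg gz_nonneg
  have hGs : ∀ S : Finset ℤ, ∑ k ∈ S, gz k ≤ ∑' k, gz k := fun S =>
    gz_sum.sum_le_tsum S (fun k _ => gz_nonneg k)
  refine ⟨C₃ * (31 * C₂) ^ 2 * (∑' k, gz k) ^ 3 + 1, by positivity, ?_⟩
  intro T hT Q P hF p σ hσ Q' hQ' h
  have hT0 : 0 < T := by linarith
  classical
  -- the numbers
  obtain ⟨K, hKd⟩ : ∃ K : ℤ × ℤ → Fin 3 → ℤ,
      ∀ s i, K s i = ⌊T * Dc (P s - p i) / Nm (P s - p i)⌋ := ⟨_, fun _ _ => rfl⟩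
  -- few curves have the same numbers
  have hfib : ∀ κ : Fin 3 → ℤ, ((Q'.filter fun s => K s = κ).card : ℝ) ≤ C₃ * (31 * C₂) ^ 2 := by
    intro κ
    rcases (Q'.filter fun s => K s = κ).eq_empty_or_nonempty with he | ⟨s, hs⟩
    · rw [he, Finset.card_empty, Nat.cast_zero]
      positivity
    rw [Finset.mem_filter] at hs
    refine (hL (Q'.filter fun s => K s = κ) s (31 * C₂) (by linarith) ?_).1
    intro s' hs'
    rw [Finset.mem_filter] at hs'
    obtain ⟨-, -, hNs⟩ := hN T hT Q P hF s (hQ' hs.1)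
    have hp : ∀ i, ∃ ξ η : ℝ, |ξ - ce i| ≤ 1 / 60 ∧ |η - ce i ^ 2| ≤ 1 / 60 ∧
        |(P s - P s').1 + ξ * (P s - P s').2.1 + η * (P s - P s').2.2| ≤
          3 / (2 * T) + Nm (P s - P s') / 1000 := by
      intro i
      obtain ⟨q1, q2, -⟩ := h s hs.1 i
      obtain ⟨r1, -, -⟩ := h s' hs'.1 i
      have e := pair (hσ i) hT q1 r1 q2 (by rw [← hKd, ← hKd, hs.2, hs'.2])
      rwa [sub_sub_sub_cancel_right] at e
    choose ξ η hξ hη hv using hp
    have hz := hTri (P s - P s') (3 / (2 * T)) ξ η hξ hη hv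
    have hTz : T * Nm (P s - P s') ≤ 30 := by
      calc T * Nm (P s - P s') ≤ T * (20 * (3 / (2 * T))) := mul_le_mul_of_nonneg_left hz hT0.le
        _ = 30 := by field_simp; norm_num
    have h5 := hNs s' (hQ' hs'.1)
    rw [abs_sub_comm, abs_sub_comm (s'.2 : ℝ)]
    exact ⟨h5.1.trans (by nlinarith), h5.2.trans (by nlinarith)⟩
  have hterm : ∀ s ∈ Q', ∏ i, dk (T * |Dc (P s - p i)| / Nm (P s - p i)) ≤
      ∏ i, gz (K s i) := by
    intro s _
    refine Finset.prod_le_prod (fun i _ => ?_) (fun i _ => ?_)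
    · have hnn := nm_nonneg (P s - p i)
      have : 0 ≤ T * |Dc (P s - p i)| / Nm (P s - p i) := by positivity
      unfold dk
      positivity
    · have e := dk_gz (T * Dc (P s - p i) / Nm (P s - p i))
      rw [abs_div, abs_mul, abs_of_pos hT0, abs_of_nonneg (nm_nonneg _), ← hKd] at e
      exact e
  -- the sum over the numbers
  obtain ⟨S, hS⟩ : ∃ S : Fin 3 → Finset ℤ, ∀ i, S i = Q'.image fun s => K s i := ⟨_, fun _ => rfl⟩
  have hsub : Q'.image K ⊆ Fintype.piFinset S := by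
    intro κ hκ
    rw [Finset.mem_image] at hκ
    obtain ⟨s, hs, rfl⟩ := hκ
    rw [Fintype.mem_piFinset]
    intro i
    rw [hS, Finset.mem_image]
    exact ⟨s, hs, rfl⟩
  have hgp : ∀ κ : Fin 3 → ℤ, 0 ≤ ∏ i, gz (κ i) := fun κ =>
    Finset.prod_nonneg fun i _ => gz_nonneg _
  calc ∑ s ∈ Q', ∏ i, dk (T * |Dc (P s - p i)| / Nm (P s - p i))
      ≤ ∑ s ∈ Q', ∏ i, gz (K s i) := Finset.sum_le_sum hterm
    _ = ∑ κ ∈ Q'.image K, ∑ s ∈ Q'.filter (fun s => K s = κ), ∏ i, gz (K s i) :=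
        (Finset.sum_fiberwise_of_maps_to (fun s hs => Finset.mem_image_of_mem K hs) _).symm
    _ ≤ ∑ κ ∈ Q'.image K, C₃ * (31 * C₂) ^ 2 * ∏ i, gz (κ i) := by
        refine Finset.sum_le_sum fun κ _ => ?_
        have e : ∑ s ∈ Q'.filter (fun s => K s = κ), ∏ i, gz (K s i) =
            (Q'.filter fun s => K s = κ).card * ∏ i, gz (κ i) := by
          rw [Finset.sum_congr rfl (fun s hs => by rw [(Finset.mem_filter.1 hs).2]),
            Finset.sum_const, nsmul_eq_mul]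
        rw [e]
        exact mul_le_mul_of_nonneg_right (hfib κ) (hgp κ)
    _ = C₃ * (31 * C₂) ^ 2 * ∑ κ ∈ Q'.image K, ∏ i, gz (κ i) := by rw [Finset.mul_sum]
    _ ≤ C₃ * (31 * C₂) ^ 2 * ∑ κ ∈ Fintype.piFinset S, ∏ i, gz (κ i) := by
        apply mul_le_mul_of_nonneg_left _ (by positivity)
        exact Finset.sum_le_sum_of_subset_of_nonneg hsub fun κ _ _ => hgp κ
    _ = C₃ * (31 * C₂) ^ 2 * ∏ i, ∑ k ∈ S i, gz k := by
        rw [Finset.prod_univ_sum]
    _ ≤ C₃ * (31 * C₂) ^ 2 * (∑' k, gz k) ^ 3 := by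
        apply mul_le_mul_of_nonneg_left _ (by positivity)
        calc ∏ i, ∑ k ∈ S i, gz k ≤ ∏ _i : Fin 3, ∑' k, gz k :=
              Finset.prod_le_prod (fun i _ => Finset.sum_nonneg fun k _ => gz_nonneg k)
                (fun i _ => hGs (S i))
          _ = (∑' k, gz k) ^ 3 := by rw [Finset.prod_const, Finset.card_univ, Fintype.card_fin]
    _ ≤ C₃ * (31 * C₂) ^ 2 * (∑' k, gz k) ^ 3 + 1 := by linarith

end

end Pool.Agent.CRT.H81.Sol
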